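import Pool.Agent.H204R3.GP.FFT
import Pool.Agent.Y127.FftO

/-!
# The first fundamental theorem for products of general linear, symplectic and orthogonal groups

The basis vectors `x` are permuted by the involution `inv`; the classes of the basis vectors are the
blocks. On the orthogonal blocks (`O`) the involution is trivial, so that the form is diagonal there;
on the other blocks it is alternating.
-/

namespace Pool.Agent.Q59.GC

open Finset Pool.Agent.H204R3.SP Pool.Agent.H204R3.GP

variable {R Q : Type} [Fintype R] [DecidableEq R] [DecidableEq Q] {O : Q → Prop} [DecidablePred O]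
  {cls : R → Q} {inv : R → R} {jj : R → ℂ}

/-- The invariant functions of type `t`. -/
structure InvM (O : Q → Prop) (cls : R → Q) (inv : R → R) (jj : R → ℂ) {κ : Type} [Fintype κ]
    [DecidableEq κ] (t : κ → Q) (F : (κ → R) → ℂ) : Prop where
  gl : ∀ b c, ¬ O (cls b) → cls (inv b) = cls c → ∀ I : κ → R,
    ∑ k, (JJ inv jj b (I k) * F (Function.update I k c) +
      JJ inv jj c (I k) * F (Function.update I k b)) = 0
  so : ∀ b c, O (cls b) → cls b = cls c → ∀ I : κ → R,
    ∑ k, (JJ inv jj b (I k) * F (Function.update I k c) -
      JJ inv jj c (I k) * F (Function.update I k b)) = 0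
  par : ∀ o, O (cls o) → ∀ I, F I ≠ 0 → Even (univ.filter fun k => I k = o).card
  typ : ∀ I, F I ≠ 0 → ∀ k, cls (I k) = t k

/-- The space of the invariant functions of type `t`. -/
def invM (O : Q → Prop) (cls : R → Q) (inv : R → R) (jj : R → ℂ) {κ : Type} [Fintype κ]
    [DecidableEq κ] (t : κ → Q) : Submodule ℂ ((κ → R) → ℂ) where
  carrier := {F | InvM O cls inv jj t F}
  zero_mem' := by
    refine ⟨fun b c _ _ I => ?_, fun b c _ _ I => ?_, fun o _ I h => absurd rfl h,
      fun I h => absurd rfl h⟩
    · simp
    · simp
  add_mem' := by
    rintro F G hF hG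
    have key : ∀ I : κ → R, (F + G) I ≠ 0 → F I ≠ 0 ∨ G I ≠ 0 := by
      intro I h
      by_contra h1
      push Not at h1
      exact h (by rw [Pi.add_apply, h1.1, h1.2, add_zero])
    refine ⟨fun b c hb hbc I => ?_, fun b c hb hbc I => ?_, fun o ho I hI => ?_, fun I hI => ?_⟩
    · have h3 := congrArg₂ (fun x y : ℂ => x + y) (hF.gl b c hb hbc I) (hG.gl b c hb hbc I)
      simp only [add_zero] at h3
      rw [← h3, ← sum_add_distrib]
      refine sum_congr rfl fun k _ => ?_
      simp only [Pi.add_apply]
      ring
    · have h3 := congrArg₂ (fun x y : ℂ => x + y) (hF.so b c hb hbc I) (hG.so b c hb hbc I)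
      simp only [add_zero] at h3
      rw [← h3, ← sum_add_distrib]
      refine sum_congr rfl fun k _ => ?_
      simp only [Pi.add_apply]
      ring
    · rcases key I hI with h | h
      · exact hF.par o ho I h
      · exact hG.par o ho I h
    · rcases key I hI with h | h
      · exact hF.typ I h
      · exact hG.typ I h
  smul_mem' := by
    rintro a F hF
    have key : ∀ I : κ → R, (a • F) I ≠ 0 → F I ≠ 0 := by
      intro I h h1
      exact h (by rw [Pi.smul_apply, h1, smul_zero])
    refine ⟨fun b c hb hbc I => ?_, fun b c hb hbc I => ?_, fun o ho I hI => hF.par o ho I (key I hI),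
      fun I hI => hF.typ I (key I hI)⟩
    · rw [← mul_zero a, ← hF.gl b c hb hbc I, mul_sum]
      refine sum_congr rfl fun k _ => ?_
      simp only [Pi.smul_apply, smul_eq_mul]
      ring
    · rw [← mul_zero a, ← hF.so b c hb hbc I, mul_sum]
      refine sum_congr rfl fun k _ => ?_
      simp only [Pi.smul_apply, smul_eq_mul]
      ring

/-- the product of the forms over a matching indexed by an arbitrary type -/
noncomputable def prodG (cls : R → Q) (inv : R → R) (jj : R → ℂ) {κ P : Type} [Fintype P]
    (e : P × Fin 2 ≃ κ) (c : P → Q) : (κ → R) → ℂ :=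
  fun I => ∏ s, (if cls (I (e (s, 0))) = c s then JJ inv jj (I (e (s, 0))) (I (e (s, 1))) else 0)

omit [Fintype R] in
lemma prodG_mem {κ P : Type} [Fintype κ] [DecidableEq κ] [Fintype P] {m : ℕ}
    (hm : Fintype.card P = m) (e : P × Fin 2 ≃ κ) (c : P → Q) :
    prodG cls inv jj e c ∈ MatG cls inv jj κ m := by
  let η : Fin m ≃ P := (finCongr hm.symm).trans (Fintype.equivFin P).symm
  refine Submodule.subset_span ⟨(Equiv.prodCongr η (Equiv.refl _)).trans e, fun s => c (η s), ?_⟩
  funext I
  unfold prodG matG
  exact (Equiv.prod_comp η fun s => if cls (I (e (s, 0))) = c s then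
    JJ inv jj (I (e (s, 0))) (I (e (s, 1))) else 0).symm

omit [DecidableEq Q] [DecidablePred O] in
lemma sum_split (κ : Type) [Fintype κ] (p : κ → Prop) [DecidablePred p] (f : κ → ℂ) :
    ∑ k, f k = ∑ k : {k // p k}, f k.1 + ∑ k : {k // ¬ p k}, f k.1 :=
  (Fintype.sum_subtype_add_sum_subtype p f).symm

/-! ## No orthogonal positions -/

section A

variable {κ : Type} [Fintype κ] [DecidableEq κ]

omit [Fintype R] [DecidableEq Q] [DecidablePred O] in
lemma JJ_sub (hOi : ∀ x, O (cls (inv x)) → O (cls x)) (x y : {x // ¬ O (cls x)}) :
    JJ (fun z : {x // ¬ O (cls x)} => (⟨inv z.1, fun h => z.2 (hOi z.1 h)⟩ : {x // ¬ O (cls x)}))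
      (fun z => jj z.1) x y = JJ inv jj x.1 y.1 := by
  unfold JJ
  simp only [Subtype.ext_iff]

theorem fftA (hinv : ∀ x, inv (inv x) = x) (hOi : ∀ x, O (cls (inv x)) → O (cls x))
    (hjj : ∀ x, ¬ O (cls x) → jj (inv x) = -jj x) (hj0 : ∀ x, jj x ≠ 0)
    (hcls : ∀ x y, cls x = cls y → cls (inv x) = cls (inv y)) {m : ℕ}
    (hκ : Fintype.card κ = 2 * m) {t : κ → Q} (ht : ∀ k, ¬ O (t k)) {F : (κ → R) → ℂ}
    (hF : InvM O cls inv jj t F) : F ∈ MatG cls inv jj κ m := by
  classical
  let R' := {x : R // ¬ O (cls x)}
  let inv' : R' → R' := fun z => ⟨inv z.1, fun h => z.2 (hOi z.1 h)⟩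
  let jj' : R' → ℂ := fun z => jj z.1
  let cls' : R' → Q := fun z => cls z.1
  let F' : (κ → R') → ℂ := fun I => F fun k => (I k).1
  have hup : ∀ (I : κ → R') (k : κ) (c : R'), (fun l => (Function.update I k c l).1) =
      Function.update (fun l => (I l).1) k c.1 := by
    intro I k c
    funext l
    by_cases h : l = k
    · subst h; rw [Function.update_self, Function.update_self]
    · rw [Function.update_of_ne h, Function.update_of_ne h]
  have hF' : F' ∈ InvG cls' inv' jj' κ t := by
    refine ⟨fun b c hbc I => ?_, fun I hI k => hF.typ _ hI k⟩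
    rw [← hF.gl b.1 c.1 b.2 hbc fun l => (I l).1]
    refine sum_congr rfl fun k _ => ?_
    have e1 : JJ inv' jj' b (I k) = JJ inv jj b.1 (I k).1 := JJ_sub hOi b (I k)
    have e2 : JJ inv' jj' c (I k) = JJ inv jj c.1 (I k).1 := JJ_sub hOi c (I k)
    have e3 : F' (Function.update I k c) = F (Function.update (fun l => (I l).1) k c.1) := by
      rw [← hup]
    have e4 : F' (Function.update I k b) = F (Function.update (fun l => (I l).1) k b.1) := by
      rw [← hup]
    rw [e1, e2, e3, e4]
  have h1 := fftG (cls := cls') (inv := inv') (jj := jj')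
    (fun x => Subtype.ext (hinv x.1)) (fun x => hjj x.1 x.2) (fun x => hj0 x.1)
    (fun x y h => hcls x.1 y.1 h) m κ hκ t hF'
  -- the extension by zero
  let Ex : ((κ → R') → ℂ) →ₗ[ℂ] ((κ → R) → ℂ) :=
    { toFun := fun G I => if h : ∀ k, ¬ O (cls (I k)) then G (fun k => ⟨I k, h k⟩) else 0
      map_add' := fun G G' => by
        funext I
        by_cases h : ∀ k, ¬ O (cls (I k))
        · simp only [Pi.add_apply, dif_pos h]
        · simp only [Pi.add_apply, dif_neg h, add_zero]
      map_smul' := fun a G => by
        funext I
        by_cases h : ∀ k, ¬ O (cls (I k))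
        · simp only [Pi.smul_apply, dif_pos h, RingHom.id_apply]
        · simp only [Pi.smul_apply, dif_neg h, RingHom.id_apply, smul_zero] }
  have hEF : Ex F' = F := by
    funext I
    change (if h : ∀ k, ¬ O (cls (I k)) then F' (fun k => ⟨I k, h k⟩) else 0) = F I
    by_cases h : ∀ k, ¬ O (cls (I k))
    · rw [dif_pos h]
    · rw [dif_neg h]
      by_contra h2
      apply h
      intro k
      rw [hF.typ I (Ne.symm h2) k]
      exact ht k
  rw [← hEF]
  have hall : ∀ G ∈ MatG cls' inv' jj' κ m, Ex G ∈ MatG cls inv jj κ m := by
    intro G hG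
    unfold MatG at hG
    induction hG using Submodule.span_induction with
    | mem G hG =>
      obtain ⟨e, c, rfl⟩ := hG
      by_cases hc : ∀ s, ¬ O (c s)
      · have h2 : Ex (matG cls' inv' jj' e c) = matG cls inv jj e c := by
          funext I
          change (if h : ∀ k, ¬ O (cls (I k)) then matG cls' inv' jj' e c (fun k => ⟨I k, h k⟩)
            else 0) = _
          by_cases h : ∀ k, ¬ O (cls (I k))
          · rw [dif_pos h]
            unfold matG
            refine prod_congr rfl fun s _ => ?_
            have e1 := JJ_sub (jj := jj) hOi ⟨I (e (s, 0)), h _⟩ ⟨I (e (s, 1)), h _⟩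
            change (if cls (I (e (s, 0))) = c s then JJ inv' jj' ⟨I (e (s, 0)), h _⟩
              ⟨I (e (s, 1)), h _⟩ else 0) = _
            rw [e1]
          · rw [dif_neg h]
            push Not at h
            obtain ⟨k, hk⟩ := h
            obtain ⟨⟨s, a⟩, rfl⟩ := e.surjective k
            symm
            unfold matG
            refine prod_eq_zero (mem_univ s) ?_
            by_cases h3 : cls (I (e (s, 0))) = c s
            · rw [if_pos h3]
              unfold JJ
              rw [if_neg]
              intro h4
              fin_cases a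
              · exact hc s (h3 ▸ hk)
              · have h5 : O (cls (inv (I (e (s, 0))))) := by rw [← h4]; exact hk
                exact hc s (h3 ▸ hOi _ h5)
            · rw [if_neg h3]
        rw [h2]
        exact Submodule.subset_span ⟨e, c, rfl⟩
      · have h2 : Ex (matG cls' inv' jj' e c) = 0 := by
          funext I
          change (if h : ∀ k, ¬ O (cls (I k)) then matG cls' inv' jj' e c (fun k => ⟨I k, h k⟩)
            else 0) = _
          by_cases h : ∀ k, ¬ O (cls (I k))
          · rw [dif_pos h]
            push Not at hc
            obtain ⟨s, hs⟩ := hc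
            unfold matG
            refine prod_eq_zero (mem_univ s) ?_
            rw [if_neg]
            intro h3
            have h4 : cls (I (e (s, 0))) = c s := h3
            exact h (e (s, 0)) (by rw [h4]; exact hs)
          · rw [dif_neg h]
            rfl
        rw [h2]
        exact Submodule.zero_mem _
    | zero => rw [map_zero]; exact Submodule.zero_mem _
    | add a b _ _ ha hb => rw [map_add]; exact Submodule.add_mem _ ha hb
    | smul c a _ ha => rw [map_smul]; exact Submodule.smul_mem _ c ha
  exact hall _ h1

end A

/-! ## One orthogonal block -/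

section B

variable {κ : Type} [Fintype κ] [DecidableEq κ]

/-- putting together the letters of the class `C` and the others -/
def comb {t : κ → Q} {C : Q} (u : {k // t k = C} → {x : R // cls x = C})
    (v : {k // ¬ t k = C} → R) : κ → R :=
  fun k => if h : t k = C then (u ⟨k, h⟩).1 else v ⟨k, h⟩

omit [Fintype R] [Fintype κ] [DecidableEq κ] [DecidableEq R] in
lemma comb_pos {t : κ → Q} {C : Q} (u : {k // t k = C} → {x : R // cls x = C})
    (v : {k // ¬ t k = C} → R) (k : {k // t k = C}) : comb u v k.1 = (u k).1 := by
  unfold comb
  rw [dif_pos k.2]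

omit [Fintype R] [Fintype κ] [DecidableEq κ] [DecidableEq R] in
lemma comb_neg {t : κ → Q} {C : Q} (u : {k // t k = C} → {x : R // cls x = C})
    (v : {k // ¬ t k = C} → R) (k : {k // ¬ t k = C}) : comb u v k.1 = v k := by
  unfold comb
  rw [dif_neg k.2]

omit [Fintype R] [Fintype κ] [DecidableEq R] in
lemma comb_update_pos {t : κ → Q} {C : Q} (u : {k // t k = C} → {x : R // cls x = C})
    (v : {k // ¬ t k = C} → R) (k : {k // t k = C}) (c : {x : R // cls x = C}) :
    comb (Function.update u k c) v = Function.update (comb u v) k.1 c.1 := by
  funext l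
  by_cases h : l = k.1
  · subst h
    rw [Function.update_self, comb_pos, Function.update_self]
  · rw [Function.update_of_ne h]
    unfold comb
    by_cases hl : t l = C
    · rw [dif_pos hl, dif_pos hl, Function.update_of_ne]
      intro h2
      exact h (congrArg Subtype.val h2)
    · rw [dif_neg hl, dif_neg hl]

omit [Fintype R] [Fintype κ] [DecidableEq R] in
lemma comb_update_neg {t : κ → Q} {C : Q} (u : {k // t k = C} → {x : R // cls x = C})
    (v : {k // ¬ t k = C} → R) (k : {k // ¬ t k = C}) (c : R) :
    comb u (Function.update v k c) = Function.update (comb u v) k.1 c := by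
  funext l
  by_cases h : l = k.1
  · subst h
    rw [Function.update_self, comb_neg, Function.update_self]
  · rw [Function.update_of_ne h]
    unfold comb
    by_cases hl : t l = C
    · rw [dif_pos hl, dif_pos hl]
    · rw [dif_neg hl, dif_neg hl, Function.update_of_ne]
      intro h2
      exact h (congrArg Subtype.val h2)

omit [Fintype R] [DecidableEq κ] in
lemma comb_card {t : κ → Q} {C : Q} (u : {k // t k = C} → {x : R // cls x = C})
    (v : {k // ¬ t k = C} → R) (o : R) : (univ.filter fun k => comb u v k = o).card =
      (univ.filter fun k => (u k).1 = o).card + (univ.filter fun k => v k = o).card := by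
  classical
  rw [card_filter, card_filter, card_filter,
    ← Fintype.sum_subtype_add_sum_subtype (fun k => t k = C)]
  congr 1
  · exact sum_congr rfl fun k _ => by rw [comb_pos]
  · exact sum_congr rfl fun k _ => by rw [comb_neg]

variable {t : κ → Q} {C : Q} {F : (κ → R) → ℂ}

omit [Fintype R] [DecidablePred O] in
/-- the restriction to the other positions is invariant -/
lemma inv_rest (hO : ∀ x, O (cls x) → inv x = x) (hinv : ∀ x, inv (inv x) = x)
    (hOi : ∀ x, O (cls (inv x)) → O (cls x)) (hC : O C) (hF : InvM O cls inv jj t F)
    (u : {k // t k = C} → {x : R // cls x = C}) :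
    InvM O cls inv jj (fun k : {k // ¬ t k = C} => t k.1) fun v => F (comb u v) := by
  have hOi' : ∀ x, O (cls x) → O (cls (inv x)) := fun x hx => hOi (inv x) (by rw [hinv]; exact hx)
  refine ⟨fun b c hb hbc v => ?_, fun b c hb hbc v => ?_, fun o ho v hv => ?_, fun v hv k => ?_⟩
  · have h1 := hF.gl b c hb hbc (comb u v)
    rw [sum_split κ fun k => t k = C] at h1
    have h2 : ∑ k : {k // t k = C}, (JJ inv jj b (comb u v k.1) * F (Function.update (comb u v) k.1 c) +
        JJ inv jj c (comb u v k.1) * F (Function.update (comb u v) k.1 b)) = 0 := by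
      refine sum_eq_zero fun k _ => ?_
      rw [comb_pos]
      have hcO : ¬ O (cls c) := by
        rw [← hbc]
        exact fun h => hb (hOi b h)
      have e1 : JJ inv jj b (u k).1 = 0 := by
        unfold JJ
        rw [if_neg]
        intro h
        apply hb
        apply hOi
        rw [← h, (u k).2]
        exact hC
      have e2 : JJ inv jj c (u k).1 = 0 := by
        unfold JJ
        rw [if_neg]
        intro h
        apply hcO
        apply hOi
        rw [← h, (u k).2]
        exact hC
      rw [e1, e2, zero_mul, zero_mul, add_zero]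
    rw [h2, zero_add] at h1
    rw [← h1]
    refine sum_congr rfl fun k _ => ?_
    rw [comb_neg, comb_update_neg, comb_update_neg]
  · have h1 := hF.so b c hb hbc (comb u v)
    rw [sum_split κ fun k => t k = C] at h1
    by_cases hbC : cls b = C
    · refine sum_eq_zero fun k _ => ?_
      have e1 : F (comb u (Function.update v k c)) = 0 := by
        by_contra h
        have h2 := hF.typ _ h k.1
        rw [comb_neg, Function.update_self] at h2
        exact k.2 (by rw [← h2, ← hbc, hbC])
      have e2 : F (comb u (Function.update v k b)) = 0 := by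
        by_contra h
        have h2 := hF.typ _ h k.1
        rw [comb_neg, Function.update_self] at h2
        exact k.2 (by rw [← h2, hbC])
      rw [e1, e2, mul_zero, mul_zero, sub_zero]
    · have h2 : ∑ k : {k // t k = C}, (JJ inv jj b (comb u v k.1) * F (Function.update (comb u v) k.1 c) -
          JJ inv jj c (comb u v k.1) * F (Function.update (comb u v) k.1 b)) = 0 := by
        refine sum_eq_zero fun k _ => ?_
        rw [comb_pos]
        have e1 : JJ inv jj b (u k).1 = 0 := by
          unfold JJ
          rw [if_neg]
          intro h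
          rw [hO b hb] at h
          exact hbC (by rw [← h, (u k).2])
        have e2 : JJ inv jj c (u k).1 = 0 := by
          unfold JJ
          rw [if_neg]
          intro h
          rw [hO c (by rw [← hbc]; exact hb)] at h
          exact hbC (by rw [hbc, ← h, (u k).2])
        rw [e1, e2, zero_mul, zero_mul, sub_zero]
      rw [h2, zero_add] at h1
      rw [← h1]
      refine sum_congr rfl fun k _ => ?_
      rw [comb_neg, comb_update_neg, comb_update_neg]
  · by_cases hoC : cls o = C
    · have h1 : (univ.filter fun k => v k = o) = ∅ := by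
        rw [filter_eq_empty_iff]
        intro k _ hk
        have h2 := hF.typ _ hv k.1
        rw [comb_neg, hk, hoC] at h2
        exact k.2 h2.symm
      rw [h1, card_empty]
      exact Even.zero
    · have h1 := hF.par o ho _ hv
      rw [comb_card] at h1
      have h2 : (univ.filter fun k => (u k).1 = o) = ∅ := by
        rw [filter_eq_empty_iff]
        intro k _ hk
        exact hoC (by rw [← hk, (u k).2])
      rwa [h2, card_empty, zero_add] at h1
  · have h1 := hF.typ _ hv k.1
    rwa [comb_neg] at h1

end B

/-- **The first fundamental theorem** for products of general linear, symplectic and (full)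
orthogonal groups. -/
theorem fftM (hinv : ∀ x, inv (inv x) = x) (hO : ∀ x, O (cls x) → inv x = x)
    (hOi : ∀ x, O (cls (inv x)) → O (cls x))
    (hjj : ∀ x, ¬ O (cls x) → jj (inv x) = -jj x) (hj0 : ∀ x, jj x ≠ 0)
    (hcls : ∀ x y, cls x = cls y → cls (inv x) = cls (inv y)) (n : ℕ) :
    ∀ {κ : Type} [Fintype κ] [DecidableEq κ], Fintype.card κ = n → ∀ {m : ℕ}, n = 2 * m →
      ∀ {t : κ → Q} {F : (κ → R) → ℂ}, InvM O cls inv jj t F → F ∈ MatG cls inv jj κ m := by
  classical
  induction n using Nat.strong_induction_on with
  | _ n ih =>
    intro κ _ _ hn m hm t F hF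
    by_cases ht : ∀ k, ¬ O (t k)
    · exact fftA hinv hOi hjj hj0 hcls (hn.trans hm) ht hF
    push Not at ht
    obtain ⟨k0, hk0⟩ := ht
    by_cases hF0 : F = 0
    · rw [hF0]; exact Submodule.zero_mem _
    obtain ⟨I0, hI0⟩ := Function.ne_iff.mp hF0
    rw [Pi.zero_apply] at hI0
    set C := t k0 with hC
    let o : {x : R // cls x = C} := ⟨I0 k0, hF.typ I0 hI0 k0⟩
    let M := invM O cls inv jj (fun k : {k // ¬ t k = C} => t k.1)
    let f : ({k // t k = C} → {x : R // cls x = C}) → M :=
      fun u => ⟨fun v => F (comb u v), inv_rest hO hinv hOi hk0 hF u⟩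
    let Qm : Matrix {x : R // cls x = C} {x : R // cls x = C} ℂ := Matrix.diagonal fun x => jj x.1
    let Rm : Matrix {x : R // cls x = C} {x : R // cls x = C} ℂ :=
      Matrix.diagonal fun x => (jj x.1)⁻¹
    have hQR : Qm * Rm = 1 := by
      rw [Matrix.diagonal_mul_diagonal, ← Matrix.diagonal_one]
      congr 1
      funext x
      exact mul_inv_cancel₀ (hj0 x.1)
    have hQs : ∀ a b, Qm a b = Qm b a := by
      intro a b
      by_cases h : a = b
      · rw [h]
      · exact (Matrix.diagonal_apply_ne _ h).trans (Matrix.diagonal_apply_ne _ (Ne.symm h)).symm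
    have hQJ : ∀ a b : {x : R // cls x = C}, Qm a b = JJ inv jj a.1 b.1 := by
      intro a b
      unfold JJ
      rw [hO a.1 (by rw [a.2]; exact hk0)]
      by_cases h : a = b
      · rw [h, if_pos rfl]
        exact Matrix.diagonal_apply_eq _ b
      · rw [if_neg fun h' => h (Subtype.ext h'.symm)]
        exact Matrix.diagonal_apply_ne _ h
    have hinvf : Pool.Agent.TH125.Nod.Inv (fun _ : {x : R // cls x = C} => ()) Qm (fun _ => 1) f := by
      intro c b _ w
      refine Subtype.ext (funext fun v => ?_)
      have h1 := hF.so b.1 c.1 (by rw [b.2]; exact hk0) (by rw [b.2, c.2]) (comb w v)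
      rw [sum_split κ fun k => t k = C] at h1
      have h2 : ∑ k : {k // ¬ t k = C}, (JJ inv jj b.1 (comb w v k.1) *
          F (Function.update (comb w v) k.1 c.1) -
          JJ inv jj c.1 (comb w v k.1) * F (Function.update (comb w v) k.1 b.1)) = 0 := by
        refine sum_eq_zero fun k _ => ?_
        have e1 : ∀ y : {x : R // cls x = C}, F (Function.update (comb w v) k.1 y.1) = 0 := by
          intro y
          by_contra h
          have h3 := hF.typ _ h k.1
          rw [Function.update_self, y.2] at h3
          exact k.2 h3.symm
        rw [e1, e1, mul_zero, mul_zero, sub_zero]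
      rw [h2, add_zero] at h1
      have h3 : ((∑ j, (Qm b (w j) • f (Function.update w j c) -
          (1 * Qm c (w j)) • f (Function.update w j b)) : M) : _ → ℂ) v =
          ∑ j, (Qm b (w j) * F (comb (Function.update w j c) v) -
            Qm c (w j) * F (comb (Function.update w j b) v)) := by
        rw [Submodule.coe_sum, Finset.sum_apply]
        refine sum_congr rfl fun j _ => ?_
        rw [one_mul]
        rfl
      rw [h3]
      change _ = (0 : ℂ)
      rw [← h1]
      refine sum_congr rfl fun k _ => ?_
      rw [comb_pos, comb_update_pos, comb_update_pos, hQJ, hQJ]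
    have hpar : Pool.Agent.Y127.Par o f := by
      intro w hw
      refine Subtype.ext (funext fun v => ?_)
      change F (comb w v) = 0
      by_contra h
      have h1 := hF.par o.1 (by rw [o.2]; exact hk0) _ h
      rw [comb_card] at h1
      have h2 : (univ.filter fun k => v k = o.1) = ∅ := by
        rw [filter_eq_empty_iff]
        intro k _ hk
        have h2 := hF.typ _ h k.1
        rw [comb_neg, hk, o.2] at h2
        exact k.2 h2.symm
      rw [h2, card_empty, add_zero] at h1
      have h3 : (univ.filter fun k => (w k).1 = o.1).card = Pool.Agent.Y127.occ w o := by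
        unfold Pool.Agent.Y127.occ
        congr 1
        ext k
        rw [mem_filter, mem_filter, Subtype.ext_iff]
      rw [h3] at h1
      exact (Nat.not_odd_iff_even.2 h1) hw
    have hgen := Pool.Agent.Y127.fftO (R := Rm) hQs hQR (o := o)
      (fun q hq => Matrix.diagonal_apply_ne _ (Ne.symm hq)) (Fintype.card {k // t k = C}) _ f rfl
      hinvf hpar
    -- putting together
    let Φ : (({k // t k = C} → {x : R // cls x = C}) → M) →ₗ[ℂ] ((κ → R) → ℂ) :=
      { toFun := fun g I => if h : ∀ k : {k // t k = C}, cls (I k.1) = C then
          (g (fun k => ⟨I k.1, h k⟩)).1 (fun k => I k.1) else 0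
        map_add' := fun G G' => by
          funext I
          by_cases h : ∀ k : {k // t k = C}, cls (I k.1) = C
          · simp only [Pi.add_apply, dif_pos h]
            rfl
          · simp only [Pi.add_apply, dif_neg h, add_zero]
        map_smul' := fun a G => by
          funext I
          by_cases h : ∀ k : {k // t k = C}, cls (I k.1) = C
          · simp only [Pi.smul_apply, dif_pos h, RingHom.id_apply]
            rfl
          · simp only [Pi.smul_apply, dif_neg h, RingHom.id_apply, smul_zero] }
    have hΦ : Φ f = F := by
      funext I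
      change (if h : ∀ k : {k // t k = C}, cls (I k.1) = C then
          (f (fun k => ⟨I k.1, h k⟩)).1 (fun k => I k.1) else 0) = F I
      by_cases h : ∀ k : {k // t k = C}, cls (I k.1) = C
      · rw [dif_pos h]
        change F (comb (fun k => ⟨I k.1, h k⟩) fun k => I k.1) = F I
        congr 1
        funext k
        unfold comb
        by_cases hk : t k = C
        · rw [dif_pos hk]
        · rw [dif_neg hk]
      · rw [dif_neg h]
        by_contra h2
        exact h fun k => by rw [hF.typ I (Ne.symm h2) k.1, k.2]
    rw [← hΦ]
    have hall : ∀ g ∈ Pool.Agent.TH125.Nod.Gen (fun _ : {x : R // cls x = C} => ()) Qm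
        (fun _ : {k // t k = C} => ()), Φ g ∈ MatG cls inv jj κ m := by
      intro g hg
      unfold Pool.Agent.TH125.Nod.Gen at hg
      induction hg using Submodule.span_induction with
      | mem g hg =>
        obtain ⟨m0, e, w, rfl⟩ := hg
        have hc0 : Fintype.card {k // t k = C} = 2 * m0 := by
          rw [← Fintype.card_congr e, Fintype.card_prod, Fintype.card_fin, Fintype.card_fin]
          ring
        have hcsum : Fintype.card {k // t k = C} + Fintype.card {k // ¬ t k = C} = n := by
          rw [← hn]
          exact Fintype.card_subtype_compl (fun k => t k = C) ▸ Nat.add_sub_of_le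
            (Fintype.card_subtype_le _)
        have hpos : 0 < Fintype.card {k // t k = C} := Fintype.card_pos_iff.mpr ⟨⟨k0, rfl⟩⟩
        have hc1 : Fintype.card {k // ¬ t k = C} = 2 * (m - m0) := by omega
        have hlt : Fintype.card {k // ¬ t k = C} < n := by omega
        have hw := ih _ hlt rfl hc1 w.2
        -- the product with the forms over `e`
        let Ψ : (({k // ¬ t k = C} → R) → ℂ) →ₗ[ℂ] ((κ → R) → ℂ) :=
          { toFun := fun W I => (if h : ∀ k : {k // t k = C}, cls (I k.1) = C then
              ∏ l, Qm ⟨I (e (l, 0)).1, h _⟩ ⟨I (e (l, 1)).1, h _⟩ else 0) * W (fun k => I k.1)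
            map_add' := fun G G' => by
              funext I
              simp only [Pi.add_apply, mul_add]
            map_smul' := fun a G => by
              funext I
              simp only [Pi.smul_apply, smul_eq_mul, RingHom.id_apply]
              ring }
        have hΨ : Φ (Pool.Agent.TH125.Nod.gen (fun _ : {x : R // cls x = C} => ()) Qm
            (fun _ : {k // t k = C} => ()) e w) = Ψ w.1 := by
          funext I
          change (if h : ∀ k : {k // t k = C}, cls (I k.1) = C then
            (Pool.Agent.TH125.Nod.gen (fun _ : {x : R // cls x = C} => ()) Qm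
            (fun _ : {k // t k = C} => ()) e w (fun k => ⟨I k.1, h k⟩)).1 (fun k => I k.1) else 0) =
            (if h : ∀ k : {k // t k = C}, cls (I k.1) = C then
              ∏ l, Qm ⟨I (e (l, 0)).1, h _⟩ ⟨I (e (l, 1)).1, h _⟩ else 0) * w.1 (fun k => I k.1)
          by_cases h : ∀ k : {k // t k = C}, cls (I k.1) = C
          · rw [dif_pos h, dif_pos h]
            unfold Pool.Agent.TH125.Nod.gen
            rw [if_pos fun _ => rfl]
            rfl
          · rw [dif_neg h, dif_neg h, zero_mul]
        rw [hΨ]
        have hall2 : ∀ W ∈ MatG cls inv jj {k // ¬ t k = C} (m - m0),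
            Ψ W ∈ MatG cls inv jj κ m := by
          intro W hW
          unfold MatG at hW
          induction hW using Submodule.span_induction with
          | mem W hW =>
            obtain ⟨e', c', rfl⟩ := hW
            let E : (Fin m0 ⊕ Fin (m - m0)) × Fin 2 ≃ κ :=
              (Equiv.sumProdDistrib _ _ _).trans ((Equiv.sumCongr e e').trans
                (Equiv.sumCompl fun k => t k = C))
            have hE0 : ∀ l a, E (Sum.inl l, a) = (e (l, a)).1 := fun l a => rfl
            have hE1 : ∀ l a, E (Sum.inr l, a) = (e' (l, a)).1 := fun l a => rfl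
            have h1 : Ψ (matG cls inv jj e' c') = prodG cls inv jj E (Sum.elim (fun _ => C) c') := by
              funext I
              change (if h : ∀ k : {k // t k = C}, cls (I k.1) = C then
                ∏ l, Qm ⟨I (e (l, 0)).1, h _⟩ ⟨I (e (l, 1)).1, h _⟩ else 0) *
                matG cls inv jj e' c' (fun k => I k.1) = _
              unfold prodG
              rw [Fintype.prod_sum_type]
              simp only [hE0, hE1, Sum.elim_inl, Sum.elim_inr]
              congr 1
              by_cases h : ∀ k : {k // t k = C}, cls (I k.1) = C
              · rw [dif_pos h]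
                refine prod_congr rfl fun l _ => ?_
                rw [hQJ, if_pos (h _)]
              · rw [dif_neg h]
                push Not at h
                obtain ⟨k, hk⟩ := h
                obtain ⟨⟨l, a⟩, rfl⟩ := e.surjective k
                symm
                refine prod_eq_zero (mem_univ l) ?_
                by_cases h3 : cls (I (e (l, 0)).1) = C
                · rw [if_pos h3]
                  unfold JJ
                  rw [if_neg]
                  intro h4
                  rw [hO _ (by rw [h3]; exact hk0)] at h4
                  fin_cases a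
                  · exact hk h3
                  · apply hk
                    change cls (I (e (l, 1)).1) = C
                    rw [h4, h3]
                · rw [if_neg h3]
            rw [h1]
            refine prodG_mem ?_ E _
            rw [Fintype.card_sum, Fintype.card_fin, Fintype.card_fin]
            omega
          | zero => rw [map_zero]; exact Submodule.zero_mem _
          | add a b _ _ ha hb => rw [map_add]; exact Submodule.add_mem _ ha hb
          | smul c a _ ha => rw [map_smul]; exact Submodule.smul_mem _ c ha
        exact hall2 _ hw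
      | zero => rw [map_zero]; exact Submodule.zero_mem _
      | add a b _ _ ha hb => rw [map_add]; exact Submodule.add_mem _ ha hb
      | smul c a _ ha => rw [map_smul]; exact Submodule.smul_mem _ c ha
    exact hall _ hgen

end Pool.Agent.Q59.GC
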