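import Pool.Agent.Q59.GC.Num

/-!
# Hodge tensors are combinations of products of pairings and determinants
-/

namespace Pool.Agent.Q59.GC

open Finset Pool.Agent.H916R2 Pool.Agent.H204R3.SP

variable {N : ℕ} {I : Type} {Λ : Labels N I} [DecidableEq I] {ε : Letter Λ → ℂ}

variable {κ : Type}

omit [DecidableEq I] in
lemma exAll_comp {L L' : Type} [Fintype L] [Fintype L'] (η : L' ≃ L) (μ : L → I) :
    exAll Λ (fun j => μ (η j)) = exAll Λ μ := by
  unfold exAll
  exact Equiv.sum_comp η fun j => Λ.ex (μ j)

lemma detSpan_le {A : Multiset (ZMod N) → Prop} {L : Type} [Fintype L] (μ : L → I)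
    (h : exAll Λ μ = 0 ∨ A (exAll Λ μ)) : DetSpan ε μ κ ≤ algTensors A ε κ := by
  unfold DetSpan
  rw [Submodule.span_le]
  rintro x ⟨p, ν, e, rfl⟩
  let η := Fintype.equivFin L
  refine Submodule.subset_span ⟨Fintype.card L, p, fun j => μ (η.symm j), ν,
    (Equiv.sumCongr (Equiv.sigmaCongrLeft (β := fun j => Fin (Λ.dim (μ j))) η.symm)
      (Equiv.refl _)).trans e, ?_, ?_⟩
  · rw [exAll_comp]
    exact h
  · funext w
    unfold prodOf
    congr 1
    exact Fintype.prod_equiv η _ _ fun j => by
      obtain ⟨j', rfl⟩ := η.symm.surjective j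
      rw [Equiv.apply_symm_apply]
      rfl

variable [Fintype κ] [DecidableEq κ]

/-- the parities of the numbers of the orthogonal letters -/
def pv (w : κ → Letter Λ) (x : Letter Λ) : ZMod 2 :=
  if Λ.orth x.1 = true then (occ w x : ZMod 2) else 0

lemma occ_update (w : κ → Letter Λ) (k : κ) (c x : Letter Λ) :
    (occ (Function.update w k c) x : ZMod 2) =
      occ w x + (if w k = x then 1 else 0) + (if c = x then 1 else 0) := by
  have h1 : ∀ v : κ → Letter Λ, (occ v x : ZMod 2) =
      (if v k = x then 1 else 0) + ∑ l ∈ univ.erase k, if v l = x then 1 else 0 := by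
    intro v
    rw [add_sum_erase univ (fun l => if v l = x then (1 : ZMod 2) else 0) (mem_univ k)]
    unfold occ
    rw [card_filter]
    push_cast
    rfl
  rw [h1, h1 w, Function.update_self]
  have h2 : ∑ l ∈ univ.erase k, (if Function.update w k c l = x then (1 : ZMod 2) else 0) =
      ∑ l ∈ univ.erase k, if w l = x then 1 else 0 :=
    sum_congr rfl fun l hl => by rw [Function.update_of_ne (ne_of_mem_erase hl)]
  rw [h2]
  have h3 : (if w k = x then (1 : ZMod 2) else 0) + (if w k = x then 1 else 0) = 0 :=
    CharTwo.add_self_eq_zero _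
  linear_combination -h3

variable [Fintype I]

/-- the part of one type and one parity vector -/
noncomputable def part (x : (κ → Letter Λ) → ℂ) (t : κ → I) (p : Letter Λ → ZMod 2) :
    (κ → Letter Λ) → ℂ :=
  fun w => if (fun k => (w k).1) = t ∧ pv w = p then x w else 0

lemma sum_part (x : (κ → Letter Λ) → ℂ) :
    ∑ t : κ → I, ∑ p : Letter Λ → ZMod 2, part x t p = x := by
  funext w
  rw [Finset.sum_apply]
  have h1 : ∀ t : κ → I, (∑ p : Letter Λ → ZMod 2, part x t p) w =
      if (fun k => (w k).1) = t then x w else 0 := by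
    intro t
    rw [Finset.sum_apply]
    unfold part
    by_cases ht : (fun k => (w k).1) = t
    · simp only [ht, true_and]
      rw [sum_ite_eq, if_pos (mem_univ _), if_pos trivial]
    · simp only [ht, false_and, if_false, sum_const_zero]
  rw [sum_congr rfl fun t _ => h1 t, sum_ite_eq, if_pos (mem_univ _)]

omit [Fintype κ] [DecidableEq I] [Fintype I] in
lemma typ_update {w : κ → Letter Λ} {k : κ} {c : Letter Λ} (h : (w k).1 = c.1) :
    (fun l => (Function.update w k c l).1) = fun l => (w l).1 := by
  funext l
  by_cases hl : l = k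
  · subst hl
    rw [Function.update_self, h]
  · rw [Function.update_of_ne hl]

lemma part_gl {x : (κ → Letter Λ) → ℂ}
    (h1 : ∀ b c : Letter Λ, ¬ Λ.orth b.1 = true → (dual b).1 = c.1 → c ≠ dual b →
      ∀ w : κ → Letter Λ, ∑ k, (JJ dual ε b (w k) * x (Function.update w k c) +
        JJ dual ε c (w k) * x (Function.update w k b)) = 0) (t : κ → I)
    (p : Letter Λ → ZMod 2) :
    ∀ b c : Letter Λ, ¬ Λ.orth b.1 = true → (dual b).1 = c.1 → c ≠ dual b →
      ∀ w : κ → Letter Λ, ∑ k, (JJ dual ε b (w k) * part x t p (Function.update w k c) +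
        JJ dual ε c (w k) * part x t p (Function.update w k b)) = 0 := by
  intro b c hb hbc hne w
  have hcb : (dual c).1 = b.1 := by rw [dual_fst, ← hbc, dual_fst, Λ.star_star]
  have hc : ¬ Λ.orth c.1 = true := by rw [← hbc, orth_dual]; exact hb
  have key : ∀ (b c : Letter Λ), ¬ Λ.orth b.1 = true → ¬ Λ.orth c.1 = true → (dual b).1 = c.1 →
      ∀ k, JJ dual ε b (w k) * part x t p (Function.update w k c) =
      if (fun k => (w k).1) = t ∧ pv w = p then JJ dual ε b (w k) * x (Function.update w k c)
        else 0 := by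
    intro b c hb hc hbc k
    unfold JJ
    by_cases h2 : w k = dual b
    · have h3 := typ_update (w := w) (k := k) (c := c) (by rw [h2, hbc])
      have h4 : pv (Function.update w k c) = pv w := by
        funext z
        unfold pv
        by_cases hz : Λ.orth z.1 = true
        · rw [if_pos hz, if_pos hz, occ_update, if_neg, if_neg, add_zero, add_zero]
          · rintro rfl
            exact hc hz
          · intro h5
            rw [h2] at h5
            apply hb
            rw [← orth_dual, h5]
            exact hz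
        · rw [if_neg hz, if_neg hz]
      unfold part
      rw [h3, h4]
      split_ifs <;> simp
    · rw [if_neg h2, zero_mul, zero_mul]
      split_ifs <;> rfl
  have h2 : ∀ k, JJ dual ε b (w k) * part x t p (Function.update w k c) +
      JJ dual ε c (w k) * part x t p (Function.update w k b) =
      if (fun k => (w k).1) = t ∧ pv w = p then (JJ dual ε b (w k) * x (Function.update w k c) +
        JJ dual ε c (w k) * x (Function.update w k b)) else 0 := by
    intro k
    rw [key b c hb hc hbc k, key c b hc hb hcb k]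
    split_ifs <;> simp
  rw [sum_congr rfl fun k _ => h2 k]
  by_cases h3 : (fun k => (w k).1) = t ∧ pv w = p
  · simp only [if_pos h3]
    exact h1 b c hb hbc hne w
  · simp only [if_neg h3, sum_const_zero]

lemma part_so {x : (κ → Letter Λ) → ℂ}
    (h1 : ∀ b c : Letter Λ, Λ.orth b.1 = true → b.1 = c.1 →
      ∀ w : κ → Letter Λ, ∑ k, (JJ dual ε b (w k) * x (Function.update w k c) -
        JJ dual ε c (w k) * x (Function.update w k b)) = 0) (t : κ → I)
    (p : Letter Λ → ZMod 2) :
    ∀ b c : Letter Λ, Λ.orth b.1 = true → b.1 = c.1 →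
      ∀ w : κ → Letter Λ, ∑ k, (JJ dual ε b (w k) * part x t p (Function.update w k c) -
        JJ dual ε c (w k) * part x t p (Function.update w k b)) = 0 := by
  intro b c hb hbc w
  have hc : Λ.orth c.1 = true := by rw [← hbc]; exact hb
  let q : Letter Λ → ZMod 2 := fun z => pv w z + (if b = z then 1 else 0) + (if c = z then 1 else 0)
  have key : ∀ (b' c' : Letter Λ), Λ.orth b'.1 = true → b'.1 = c'.1 →
      (∀ z, pv w z + (if b' = z then 1 else 0) + (if c' = z then 1 else 0) = q z) →
      ∀ k, JJ dual ε b' (w k) * part x t p (Function.update w k c') =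
      if (fun k => (w k).1) = t ∧ q = p then JJ dual ε b' (w k) * x (Function.update w k c')
        else 0 := by
    intro b' c' hb' hbc' hq k
    have hc' : Λ.orth c'.1 = true := by rw [← hbc']; exact hb'
    unfold JJ
    rw [dual_of_orth hb']
    by_cases h2 : w k = b'
    · have h3 := typ_update (w := w) (k := k) (c := c') (by rw [h2, hbc'])
      have h4 : pv (Function.update w k c') = q := by
        funext z
        rw [← hq z]
        unfold pv
        by_cases hz : Λ.orth z.1 = true
        · rw [if_pos hz, if_pos hz, occ_update, h2]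
        · rw [if_neg hz, if_neg hz, if_neg, if_neg, add_zero, add_zero]
          · rintro rfl
            exact hz hc'
          · rintro rfl
            exact hz hb'
      unfold part
      rw [h3, h4]
      split_ifs <;> simp
    · rw [if_neg h2, zero_mul, zero_mul]
      split_ifs <;> rfl
  have h2 : ∀ k, JJ dual ε b (w k) * part x t p (Function.update w k c) -
      JJ dual ε c (w k) * part x t p (Function.update w k b) =
      if (fun k => (w k).1) = t ∧ q = p then (JJ dual ε b (w k) * x (Function.update w k c) -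
        JJ dual ε c (w k) * x (Function.update w k b)) else 0 := by
    intro k
    rw [key b c hb hbc (fun z => rfl) k, key c b hc hbc.symm (fun z => by
      change _ = pv w z + (if b = z then 1 else 0) + (if c = z then 1 else 0)
      ring) k]
    split_ifs <;> simp
  rw [sum_congr rfl fun k _ => h2 k]
  by_cases h3 : (fun k => (w k).1) = t ∧ q = p
  · simp only [if_pos h3]
    exact h1 b c hb hbc w
  · simp only [if_neg h3, sum_const_zero]

/-- **Hodge tensors are combinations of products of pairings and determinants whose exponents form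
a Hodge character.** -/
theorem main [NeZero N] (hε : ∀ x : Letter Λ, ¬ Λ.orth x.1 = true → ε (dual x) = -ε x)
    (hε0 : ∀ x, ε x ≠ 0) {A : Multiset (ZMod N) → Prop} {B : ℕ}
    (hB : ∀ i, Multiset.card (Λ.ex i) ≤ B * Λ.dim i)
    (hA : ∀ s : Multiset (ZMod N), IsHodge N s → s ≠ 0 → Multiset.card s ≤ B * Fintype.card κ → A s)
    {x : (κ → Letter Λ) → ℂ} (hx : IsHodgeTensor ε x) : x ∈ algTensors A ε κ := by
  classical
  rw [← sum_part x]
  refine Submodule.sum_mem _ fun t _ => Submodule.sum_mem _ fun p _ => ?_
  by_cases h0 : part x t p = 0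
  · rw [h0]; exact Submodule.zero_mem _
  obtain ⟨w0, hw0⟩ := Function.ne_iff.mp h0
  rw [Pi.zero_apply] at hw0
  have hpart : ∀ w, part x t p w ≠ 0 → ((fun k => (w k).1) = t ∧ pv w = p) ∧ x w ≠ 0 := by
    intro w hw
    unfold part at hw
    split_ifs at hw with h
    · exact ⟨h, hw⟩
    · exact absurd rfl hw
  have heq : ∀ w, part x t p w ≠ 0 → ∀ (i : I) (a b : Fin (Λ.dim i)),
      net w ⟨i, a⟩ = net w ⟨i, b⟩ := fun w hw i a b => net_eq hx.inv (hpart w hw).2 i a b
  have hpar : ∀ w, part x t p w ≠ 0 → ∀ (i : I), Λ.orth i = true → ∀ (a b : Fin (Λ.dim i)),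
      occ w ⟨i, a⟩ % 2 = occ w ⟨i, b⟩ % 2 :=
    fun w hw i hi a b => parity_eq hx.inv (hpart w hw).2 hi a b
  have hcore := core hε hε0
    (part_gl (fun b c hb hbc hne w => root_rel hε hε0 hx.inv hb hbc hne w) t p)
    (part_so (fun b c hb hbc w => rot_rel hε0 hx.inv hb hbc w) t p)
    (fun w hw k => congrFun (hpart w hw).1.1 k) heq hpar hw0 (fun w hw z hz => by
      have h1 : pv w z = pv w0 z := by rw [(hpart w hw).1.2, (hpart w0 hw0).1.2]
      unfold pv at h1
      rw [if_pos hz, if_pos hz] at h1
      exact (ZMod.natCast_eq_natCast_iff' _ _ 2).mp h1)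
  refine detSpan_le _ ?_ hcore
  by_cases hL : exAll Λ (fun j : Σ i : I, Fin (mult w0 i) => j.1) = 0
  · exact Or.inl hL
  right
  refine hA _ ?_ hL (exAll_card_le hB (heq w0 hw0) (hpar w0 hw0))
  refine isHodge_exAll _ fun u => ?_
  rw [Fintype.sum_sigma]
  have h1 := sum_exc (heq w0 hw0) u (hx.type u w0 (hpart w0 hw0).2)
  rw [← h1]
  refine sum_congr rfl fun i _ => ?_
  change ∑ _y : Fin (mult w0 i), exc Λ (u : ZMod N) i = _
  rw [sum_const, card_univ, Fintype.card_fin, nsmul_eq_mul]

end Pool.Agent.Q59.GC
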