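import Pool.Agent.Q59.GC.Core
import Pool.Agent.H916R2.Defs

/-!
# The exponents of the determinants of a Hodge tensor form a Hodge character
-/

namespace Pool.Agent.Q59.GC

open Finset Pool.Agent.H916R2

variable {N : ℕ} {I : Type} {Λ : Labels N I} [NeZero N]

omit [NeZero N] in
variable (Λ) in
/-- the excess of a label -/
def exc (t : ZMod N) (i : I) : ℤ :=
  2 * ((Λ.ex i).map fun a => ((t * a).val : ℤ)).sum - N * Multiset.card (Λ.ex i)

lemma val_neg_mul (t a : ZMod N) (h : t * a ≠ 0) : ((t * -a).val : ℤ) = N - (t * a).val := by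
  rw [mul_neg, ZMod.neg_val, if_neg h]
  have := (ZMod.val_lt (t * a)).le
  push_cast [Nat.cast_sub this]
  ring

lemma sum_neg_aux (t : (ZMod N)ˣ) (u : Multiset (ZMod N)) (hu : (0 : ZMod N) ∉ u) :
    ((u.map fun a => -a).map fun a => (((t : ZMod N) * a).val : ℤ)).sum =
      N * Multiset.card u - (u.map fun a => (((t : ZMod N) * a).val : ℤ)).sum := by
  induction u using Multiset.induction_on with
  | empty => simp
  | cons a u ih =>
    have ha : (a : ZMod N) ≠ 0 := fun h => hu (by rw [h]; exact Multiset.mem_cons_self _ _)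
    have h0 : (0 : ZMod N) ∉ u := fun h => hu (Multiset.mem_cons_of_mem h)
    simp only [Multiset.map_cons, Multiset.sum_cons, Multiset.card_cons]
    rw [ih h0, val_neg_mul _ _ fun h' => ha (t.isUnit.mul_right_eq_zero.mp h')]
    push_cast
    ring

lemma exc_star (t : (ZMod N)ˣ) (i : I) : exc Λ (t : ZMod N) (Λ.star i) = - exc Λ (t : ZMod N) i := by
  unfold exc
  rw [Λ.ex_star, sum_neg_aux t _ (Λ.ex_ne i), Multiset.card_map]
  ring

lemma exc_orth (t : (ZMod N)ˣ) {i : I} (hi : Λ.orth i = true) : exc Λ (t : ZMod N) i = 0 := by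
  have := exc_star (Λ := Λ) t i
  rw [Λ.orth_star i hi] at this
  linarith

lemma hodge_eq (t : (ZMod N)ˣ) {i : I} (h : 0 < Λ.dim i) :
    hodge Λ (t : ZMod N) i / Λ.dim i =
      1 / 2 + (exc Λ (t : ZMod N) i : ℚ) / Λ.dim i / (2 * N) := by
  have hN : (N : ℚ) ≠ 0 := by exact_mod_cast NeZero.ne N
  have hd : (Λ.dim i : ℚ) ≠ 0 := by exact_mod_cast h.ne'
  have h1 : (Λ.dim i : ℚ) = Multiset.card (Λ.ex i) + 2 * Λ.half i := by
    exact_mod_cast Λ.dim_eq i
  have h2 : (((Λ.ex i).map fun a => (((t : ZMod N) * a).val : ℤ)).sum : ℚ) =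
      ((Λ.ex i).map fun a => (((t : ZMod N) * a).val : ℚ)).sum := by
    have h3 := map_multiset_sum (Int.castAddHom ℚ) ((Λ.ex i).map fun a => (((t : ZMod N) * a).val : ℤ))
    rw [Multiset.map_map] at h3
    exact h3
  have h5 : (exc Λ (t : ZMod N) i : ℚ) =
      2 * ((Λ.ex i).map fun a => (((t : ZMod N) * a).val : ℚ)).sum -
        N * Multiset.card (Λ.ex i) := by
    unfold exc
    rw [Int.cast_sub, Int.cast_mul, Int.cast_mul, h2, Int.cast_natCast, Int.cast_natCast]
    norm_num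
  rw [h5]
  unfold hodge
  have h4 : (Multiset.card (Λ.ex i) : ℚ) = Λ.dim i - 2 * Λ.half i := by linarith
  rw [h4]
  field_simp
  ring

variable [DecidableEq I] [Fintype I]

variable {κ : Type} [Fintype κ] [DecidableEq κ]

omit [NeZero N] [DecidableEq κ] in
lemma sum_word (w : κ → Letter Λ) (g : Letter Λ → ℚ) :
    ∑ k, g (w k) = ∑ x, (occ w x : ℚ) * g x := by
  classical
  have h1 : ∀ k, g (w k) = ∑ x, if w k = x then g x else 0 := by
    intro k
    rw [sum_ite_eq, if_pos (mem_univ _)]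
  rw [sum_congr rfl fun k _ => h1 k, sum_comm]
  refine sum_congr rfl fun x _ => ?_
  rw [← sum_filter, sum_const, nsmul_eq_mul]
  rfl

omit [NeZero N] [DecidableEq κ] in
lemma sum_word_anti (w : κ → Letter Λ) (g : Letter Λ → ℚ) (hg : ∀ x, g (dual x) = - g x) :
    2 * ∑ k, g (w k) = ∑ x, (net w x : ℚ) * g x := by
  classical
  have h1 := sum_word w g
  have h2 : ∑ k, g (w k) = - ∑ x, (occ w (dual x) : ℚ) * g x := by
    rw [h1, ← sum_neg_distrib]
    let E : Letter Λ ≃ Letter Λ := ⟨dual, dual, dual_dual, dual_dual⟩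
    rw [← Equiv.sum_comp E]
    refine sum_congr rfl fun x _ => ?_
    change (occ w (dual x) : ℚ) * g (dual x) = _
    rw [hg]; ring
  have h3 : 2 * ∑ k, g (w k) = ∑ x, (occ w x : ℚ) * g x -
      ∑ x, (occ w (dual x) : ℚ) * g x := by linarith
  rw [h3, ← sum_sub_distrib]
  refine sum_congr rfl fun x _ => ?_
  unfold net
  push_cast
  ring

omit [DecidableEq κ] in
/-- the sum of the excesses -/
lemma sum_exc {w : κ → Letter Λ} (heq : ∀ (i : I) (a b : Fin (Λ.dim i)),
    net w ⟨i, a⟩ = net w ⟨i, b⟩) (t : (ZMod N)ˣ)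
    (ht : ∑ k, hodge Λ t (w k).1 / Λ.dim (w k).1 = (Fintype.card κ : ℚ) / 2) :
    ∑ i : I, (mult w i : ℤ) * exc Λ (t : ZMod N) i = 0 := by
  classical
  have hN : (N : ℚ) ≠ 0 := by exact_mod_cast NeZero.ne N
  have hpos : ∀ x : Letter Λ, 0 < Λ.dim x.1 := fun x => (Nat.zero_le _).trans_lt x.2.2
  set g : Letter Λ → ℚ := fun x => (exc Λ (t : ZMod N) x.1 : ℚ) / Λ.dim x.1 with hg
  have h1 : ∑ k, g (w k) = 0 := by
    have e1 : ∀ k, hodge Λ (t : ZMod N) (w k).1 / Λ.dim (w k).1 = 1 / 2 + g (w k) / (2 * N) :=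
      fun k => hodge_eq t (hpos (w k))
    rw [sum_congr rfl fun k _ => e1 k, sum_add_distrib, sum_const, card_univ, nsmul_eq_mul,
      ← sum_div] at ht
    have e2 : (∑ k, g (w k)) / (2 * N) = 0 := by linarith
    rcases div_eq_zero_iff.mp e2 with h | h
    · exact h
    · exfalso
      exact (mul_ne_zero two_ne_zero hN) h
  have h2 := sum_word_anti w g fun x => by
    rw [hg]
    change (exc Λ (t : ZMod N) (dual x).1 : ℚ) / Λ.dim (dual x).1 = _
    rw [dual_fst, exc_star, Λ.dim_star]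
    push_cast
    ring
  rw [h1, mul_zero, ← univ_sigma_univ, sum_sigma] at h2
  have h3 : ∀ i : I, ∑ a : Fin (Λ.dim i), (net w ⟨i, a⟩ : ℚ) * g ⟨i, a⟩ =
      ((mult w i : ℚ) - mult w (Λ.star i)) * exc Λ (t : ZMod N) i := by
    intro i
    by_cases ho : Λ.orth i = true
    · rw [exc_orth t ho]
      rw [sum_eq_zero fun a _ => by rw [net_orth w (x := ⟨i, a⟩) ho]; simp]
      simp
    by_cases hd : 0 < Λ.dim i
    · have e1 : ∀ a : Fin (Λ.dim i), (net w ⟨i, a⟩ : ℚ) * g ⟨i, a⟩ =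
          ((mult w i : ℚ) - mult w (Λ.star i)) * ((exc Λ (t : ZMod N) i : ℚ) / Λ.dim i) := by
        intro a
        have := net_eq_mult heq (x := ⟨i, a⟩) ho
        rw [this]
        push_cast
        rfl
      rw [sum_congr rfl fun a _ => e1 a, sum_const, card_univ, Fintype.card_fin, nsmul_eq_mul]
      have hd' : (Λ.dim i : ℚ) ≠ 0 := by exact_mod_cast hd.ne'
      field_simp
    · have e1 : mult w i = 0 := by unfold mult; rw [dif_neg hd]
      have e2 : mult w (Λ.star i) = 0 := by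
        unfold mult
        rw [dif_neg]
        rw [Λ.dim_star]; exact hd
      rw [e1, e2]
      have : IsEmpty (Fin (Λ.dim i)) := by
        have h0 : Λ.dim i = 0 := by omega
        rw [h0]; infer_instance
      rw [univ_eq_empty, sum_empty]
      ring
  rw [sum_congr rfl fun i _ => h3 i] at h2
  have h4 : ∑ i : I, (mult w (Λ.star i) : ℚ) * exc Λ (t : ZMod N) i =
      - ∑ i : I, (mult w i : ℚ) * exc Λ (t : ZMod N) i := by
    rw [← sum_neg_distrib]
    let E : I ≃ I := ⟨Λ.star, Λ.star, Λ.star_star, Λ.star_star⟩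
    rw [← Equiv.sum_comp E]
    refine sum_congr rfl fun i _ => ?_
    change (mult w (Λ.star (Λ.star i)) : ℚ) * exc Λ (t : ZMod N) (Λ.star i) = _
    rw [Λ.star_star, exc_star]
    push_cast
    ring
  have h5 : ∑ i : I, ((mult w i : ℚ) - mult w (Λ.star i)) * exc Λ (t : ZMod N) i =
      ∑ i : I, (mult w i : ℚ) * exc Λ (t : ZMod N) i -
        ∑ i : I, (mult w (Λ.star i) : ℚ) * exc Λ (t : ZMod N) i := by
    rw [← sum_sub_distrib]
    exact sum_congr rfl fun i _ => by ring
  rw [h5, h4] at h2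
  have h6 : ∑ i : I, (mult w i : ℚ) * exc Λ (t : ZMod N) i = 0 := by linarith
  exact_mod_cast h6

section All

variable {L : Type} [Fintype L]

omit [NeZero N] [DecidableEq I] [Fintype I] in
lemma exAll_card (μ : L → I) : Multiset.card (exAll Λ μ) = ∑ j, Multiset.card (Λ.ex (μ j)) := by
  let φ : Multiset (ZMod N) →+ ℕ := ⟨⟨Multiset.card, Multiset.card_zero⟩, Multiset.card_add⟩
  exact map_sum φ (fun j => Λ.ex (μ j)) (univ : Finset L)

omit [NeZero N] [DecidableEq I] [Fintype I] in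
lemma exAll_sum (μ : L → I) (f : ZMod N → ℤ) :
    ((exAll Λ μ).map f).sum = ∑ j, ((Λ.ex (μ j)).map f).sum := by
  unfold exAll
  let φ : Multiset (ZMod N) →+ ℤ := ⟨⟨fun s => (s.map f).sum, by simp⟩, fun s t => by simp⟩
  exact map_sum φ (fun j => Λ.ex (μ j)) (univ : Finset L)

omit [NeZero N] [DecidableEq I] [Fintype I] in
lemma exAll_sum_zero (μ : L → I) : (exAll Λ μ).sum = 0 := by
  unfold exAll
  have h1 : (∑ j, Λ.ex (μ j) : Multiset (ZMod N)).sum = ∑ j, (Λ.ex (μ j)).sum :=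
    map_sum (Multiset.sumAddMonoidHom : Multiset (ZMod N) →+ ZMod N)
      (fun j => Λ.ex (μ j)) (univ : Finset L)
  rw [h1]
  exact sum_eq_zero fun j _ => Λ.ex_sum (μ j)

omit [NeZero N] [DecidableEq I] [Fintype I] in
lemma exAll_zero_notMem (μ : L → I) : (0 : ZMod N) ∉ exAll Λ μ := by
  unfold exAll
  rw [Multiset.mem_sum]
  rintro ⟨j, -, hj⟩
  exact Λ.ex_ne _ hj

omit [DecidableEq I] [Fintype I] in
/-- a family with vanishing excesses gives a Hodge character -/
lemma isHodge_exAll (μ : L → I)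
    (h : ∀ t : (ZMod N)ˣ, ∑ j, exc Λ (t : ZMod N) (μ j) = 0) : IsHodge N (exAll Λ μ) := by
  have h1 : ∀ t : (ZMod N)ˣ, 2 * ((exAll Λ μ).map fun a => ((t : ZMod N) * a).val).sum =
      N * Multiset.card (exAll Λ μ) := by
    intro t
    have h0 : ((((exAll Λ μ).map fun a => ((t : ZMod N) * a).val).sum : ℕ) : ℤ) =
        ((exAll Λ μ).map fun a => (((t : ZMod N) * a).val : ℤ)).sum := by
      have h3 := map_multiset_sum (Nat.castAddMonoidHom ℤ)
        ((exAll Λ μ).map fun a => ((t : ZMod N) * a).val)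
      rw [Multiset.map_map] at h3
      exact h3
    have h2 := h t
    unfold exc at h2
    rw [sum_sub_distrib, ← mul_sum, ← mul_sum, ← exAll_sum] at h2
    have h3 : 2 * ((((exAll Λ μ).map fun a => ((t : ZMod N) * a).val).sum : ℕ) : ℤ) =
        N * ((Multiset.card (exAll Λ μ) : ℕ) : ℤ) := by
      rw [h0, exAll_card]
      push_cast
      linarith
    exact_mod_cast h3
  refine ⟨exAll_zero_notMem μ, ?_, exAll_sum_zero μ, h1⟩
  have h2 := h1 1
  simp only [Units.val_one, one_mul] at h2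
  have h3 : ((((exAll Λ μ).map fun a => a.val).sum : ℕ) : ZMod N) = 0 := by
    rw [← exAll_sum_zero (Λ := Λ) μ]
    have h4 : ((((exAll Λ μ).map fun a => a.val).sum : ℕ) : ZMod N) =
        ((exAll Λ μ).map fun a => ((a.val : ℕ) : ZMod N)).sum := by
      have h5 := map_multiset_sum (Nat.castAddMonoidHom (ZMod N)) ((exAll Λ μ).map fun a => a.val)
      rw [Multiset.map_map] at h5
      exact h5
    rw [h4]
    congr 1
    conv_rhs => rw [← Multiset.map_id (exAll Λ μ)]
    exact Multiset.map_congr rfl fun a _ => ZMod.natCast_zmod_val a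
  rw [ZMod.natCast_eq_zero_iff] at h3
  obtain ⟨q, hq⟩ := h3
  rw [hq] at h2
  have h4 : N * (2 * q) = N * Multiset.card (exAll Λ μ) := by rw [← h2]; ring
  exact ⟨q, by rw [← Nat.eq_of_mul_eq_mul_left (NeZero.pos N) h4]; ring⟩

end All

omit [NeZero N] [DecidableEq κ] in
/-- the number of the exponents -/
lemma exAll_card_le {B : ℕ} (hB : ∀ i, Multiset.card (Λ.ex i) ≤ B * Λ.dim i)
    {w : κ → Letter Λ} (heq : ∀ (i : I) (a b : Fin (Λ.dim i)), net w ⟨i, a⟩ = net w ⟨i, b⟩)
    (hpar : ∀ (i : I), Λ.orth i = true → ∀ (a b : Fin (Λ.dim i)),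
      occ w ⟨i, a⟩ % 2 = occ w ⟨i, b⟩ % 2) :
    Multiset.card (exAll Λ fun j : Σ i : I, Fin (mult w i) => j.1) ≤ B * Fintype.card κ := by
  classical
  rw [exAll_card, Fintype.sum_sigma]
  have h1 : ∀ i : I, ∑ _a : Fin (mult w i), Multiset.card (Λ.ex i) ≤
      B * ∑ _a : Fin (Λ.dim i), mult w i := by
    intro i
    rw [sum_const, card_univ, Fintype.card_fin, sum_const, card_univ, Fintype.card_fin,
      smul_eq_mul, smul_eq_mul]
    calc mult w i * Multiset.card (Λ.ex i) ≤ mult w i * (B * Λ.dim i) :=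
          Nat.mul_le_mul_left _ (hB i)
      _ = B * (Λ.dim i * mult w i) := by ring
  refine (sum_le_sum fun i _ => h1 i).trans ?_
  rw [← mul_sum]
  refine Nat.mul_le_mul_left B ?_
  have h2 : ∑ i : I, ∑ _a : Fin (Λ.dim i), mult w i = ∑ x : Letter Λ, mult w x.1 := by
    rw [Fintype.sum_sigma]
  rw [h2]
  have h3 : ∀ x : Letter Λ, mult w x.1 ≤ occ w x := by
    intro x
    by_cases ho : Λ.orth x.1 = true
    · rw [mult_orth hpar ho]
      exact Nat.mod_le _ _
    · have h4 := mult_eq heq ho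
      have h5 : net w x ≤ occ w x := by unfold net; omega
      have h6 : (mult w x.1 : ℤ) ≤ occ w x := by
        rw [h4]
        exact max_le h5 (by positivity)
      exact_mod_cast h6
  refine (sum_le_sum fun x _ => h3 x).trans ?_
  rw [← card_univ (α := κ)]
  exact (card_eq_sum_card_fiberwise fun k _ => mem_univ (w k)).symm.le

end Pool.Agent.Q59.GC
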